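import Pool.Agent.Q106.PK.Stm

/-!
# Project PK, job EXPL (helper54)
-/

namespace Pool.Agent.Q54.PK

open Filter Topology Pool.Agent.Q106.PK

theorem t_EXPL (h : S_UP) : S_EXPL := by
  intro lam hlam hl m hm
  by_contra hne
  push Not at hne
  have h1 : ∀ k ∈ Finset.Icc m (4 * m), ∀ᶠ E in 𝓝 lam, (t k : ℝ) * (k : ℝ) ^ 5 < E ^ k := by
    intro k hk
    rw [Finset.mem_Icc] at hk
    exact ((continuous_pow k).tendsto lam).eventually (eventually_gt_nhds (hne k hk.1 hk.2))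
  have h2 : ∀ᶠ E in 𝓝 lam, ∀ k ∈ Finset.Icc m (4 * m), (t k : ℝ) * (k : ℝ) ^ 5 < E ^ k :=
    (Filter.eventually_all_finset _).2 h1
  have h3 : ∀ᶠ E in 𝓝 lam, (0 : ℝ) < E := eventually_gt_nhds (by linarith)
  have h4 : ∀ᶠ E in 𝓝[<] lam, E < lam := self_mem_nhdsWithin
  obtain ⟨E, hE, hE'⟩ := (((h2.and h3).filter_mono nhdsWithin_le_nhds).and h4).exists
  have h5 := h lam hl m E hm hE.2 (fun k h6 h7 => (hE.1 k (Finset.mem_Icc.2 ⟨h6, h7⟩)).le)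
  linarith

end Pool.Agent.Q54.PK
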